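import Pool.Agent.Q161.ESV.Stm3

set_option autoImplicit false

/-!
# SLV: the image in `H¹(F, V_D/T)`
-/

namespace Pool.Agent.Q164.ESV

open NumberField IsDedekindDomain Finset Pool.Agent.Q161.ESV

lemma slv_norm {l : ℕ} [Fact l.Prime] (τ : PadicAlgCl l ≃ₐ[ℚ_[l]] PadicAlgCl l)
    (x : PadicAlgCl l) : ‖τ x‖ = ‖x‖ := by
  rw [← PadicAlgCl.spectralNorm_eq, ← PadicAlgCl.spectralNorm_eq]
  exact (spectralNorm_eq_of_equiv τ x).symm

lemma slv_conj {F : Type} [Field F] {l : ℕ} [Fact l.Prime]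
    (ψ : AlgebraicClosure F →+* PadicAlgCl l) (σ σ₀ : GF F) (hσ : σ ∈ Dec ψ) (hσ₀ : σ₀ ∈ Ine ψ) :
    σ * σ₀ * σ⁻¹ ∈ Ine ψ := by
  obtain ⟨τ, hτ⟩ := hσ
  obtain ⟨τ₀, hτ₀, hn⟩ := hσ₀
  refine ⟨τ * τ₀ * τ⁻¹, ?_, ?_⟩
  · intro x
    have h1 : τ⁻¹ (ψ x) = ψ (σ⁻¹ x) := by
      have h2 := hτ (σ⁻¹ x)
      have h3 : σ (σ⁻¹ x) = x := by
        rw [← AlgEquiv.mul_apply, mul_inv_cancel, AlgEquiv.one_apply]
      rw [h3] at h2
      rw [← h2, ← AlgEquiv.mul_apply, inv_mul_cancel, AlgEquiv.one_apply]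
    rw [AlgEquiv.mul_apply, AlgEquiv.mul_apply, h1, hτ₀, hτ, AlgEquiv.mul_apply,
      AlgEquiv.mul_apply]
  · intro x hx
    have h3 : τ (τ⁻¹ x) = x := by
      rw [← AlgEquiv.mul_apply, mul_inv_cancel, AlgEquiv.one_apply]
    have h4 : ‖τ⁻¹ x‖ ≤ 1 := by
      rw [slv_norm]
      exact hx
    have h5 := hn (τ⁻¹ x) h4
    have h6 : (τ * τ₀ * τ⁻¹) x - x = τ (τ₀ (τ⁻¹ x) - τ⁻¹ x) := by
      rw [map_sub, h3, AlgEquiv.mul_apply, AlgEquiv.mul_apply]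
    rw [h6, slv_norm]
    exact h5

lemma slv_lat_open (n : ℕ) : IsOpen {v : Fin n → ℚ_[2] | v ∈ lat n} := by
  have h1 : {v : Fin n → ℚ_[2] | v ∈ lat n} = ⋂ i, {v : Fin n → ℚ_[2] | ‖v i‖ ≤ 1} := by
    ext v
    simp only [Set.mem_iInter, Set.mem_setOf_eq]
    rfl
  rw [h1]
  refine isOpen_iInter_of_finite fun i => ?_
  have h2 : IsOpen (Metric.closedBall (0 : ℚ_[2]) 1) :=
    IsUltrametricDist.isOpen_closedBall 0 one_ne_zero
  have h3 : {v : Fin n → ℚ_[2] | ‖v i‖ ≤ 1} = (fun v : Fin n → ℚ_[2] => v i) ⁻¹'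
      (Metric.closedBall (0 : ℚ_[2]) 1) := by
    ext v
    simp
  rw [h3]
  exact h2.preimage (continuous_apply i)

lemma slv_mk {F : Type} [Field F] {n : ℕ} (ρ : GF F →* GL (Fin n) ℤ_[2]) (D : F)
    (P : Fin n → ℚ_[2]) (σ : GF F) :
    mkW ρ (cobV ρ D P σ) = cob (WV ρ) D (mkW ρ P) σ := by
  change mkW ρ (chi D σ • act ρ σ P - P) = chi D σ • σ • mkW ρ P - mkW ρ P
  rw [map_sub, map_zsmul, smul_mkW]

/-- SLV -/
theorem slv : S_CHI → S_SLV := by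
  intro hCHI F _ _ n ρ hρ
  obtain ⟨B1, hB1, hunr⟩ := hρ.unr
  refine ⟨B1, hB1, fun B hBB hB0 D c hc => ?_⟩
  obtain ⟨hchi, -, -⟩ := hCHI F
  obtain ⟨hpm, hmul, -, -⟩ := hchi D
  obtain ⟨⟨hcoc, hcont⟩, hloc⟩ := hc
  have hne : ∀ σ, chi D σ ≠ 0 := by
    intro σ
    rcases hpm σ with h | h <;> rw [h] <;> decide
  refine ⟨⟨fun σ τ => ?_, ?_⟩, ⟨fun l _ hl ψ => ?_, fun l _ hl ψ hram => ?_⟩⟩
  · show mkW ρ (c (σ * τ)) = mkW ρ (c σ) + chi D σ • σ • mkW ρ (c τ)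
    rw [hcoc, map_add, map_zsmul, smul_mkW]
  · have hc1 : c 1 = 0 := by
      have h1 := hcoc 1 1
      rw [one_mul, act_one, LinearMap.id_apply] at h1
      have h2 : chi D (1 : GF F) • c 1 = 0 := by
        have := h1.symm
        rwa [add_eq_left] at this
      exact (smul_eq_zero.1 h2).resolve_left (hne 1)
    have h1 : {σ : GF F | c σ ∈ lat n} ∈ nhds (1 : GF F) := by
      have h2 : IsOpen (c ⁻¹' {v : Fin n → ℚ_[2] | v ∈ lat n}) :=
        (slv_lat_open n).preimage hcont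
      refine h2.mem_nhds ?_
      show c 1 ∈ lat n
      rw [hc1]
      exact zero_mem _
    rw [krullTopology_mem_nhds_one_iff] at h1
    obtain ⟨L, hL, hsub⟩ := h1
    refine ⟨L, hL, fun σ hσ => ?_⟩
    exact (mkW_eq_zero ρ).2 (hsub hσ)
  · obtain ⟨P, hP⟩ := hloc l hl ψ
    refine ⟨mkW ρ P, fun σ hσ => ?_⟩
    show mkW ρ (c σ) = _
    rw [hP σ hσ, slv_mk]
  · obtain ⟨P, hP⟩ := hloc l hl ψ
    obtain ⟨σ₀, hσ₀, hχ₀⟩ := hram
    have hlB1 : ¬ l ∣ B1 := fun h => hl (h.trans hBB)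
    refine ⟨mkW ρ P, fun σ hσ => ?_⟩
    show mkW ρ (c σ) = _
    have hkey : c σ = cobV ρ D P σ := by
      set c1 : GF F → (Fin n → ℚ_[2]) := fun σ => c σ - cobV ρ D P σ with hc1
      have hcoc1 : ∀ σ τ, c1 (σ * τ) = c1 σ + chi D σ • act ρ σ (c1 τ) := by
        intro σ τ
        have e : ∀ σ, cobV ρ D P σ = chi D σ • act ρ σ P - P := fun σ => rfl
        simp only [hc1, e, hcoc, hmul, act_mul, map_sub, map_zsmul, smul_sub, mul_smul]
        abel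
      have h0 : ∀ σ ∈ Ine ψ, c1 σ = 0 := by
        intro σ hσ
        simp only [hc1]
        rw [hP σ hσ, sub_self]
      set σ₁ := σ * σ₀ * σ⁻¹ with hσ₁
      have hσ₁I : σ₁ ∈ Ine ψ := slv_conj ψ σ σ₀ hσ hσ₀
      have hprod : σ₁ * σ = σ * σ₀ := by
        rw [hσ₁, mul_assoc, inv_mul_cancel, mul_one]
      have hχ₁ : chi D σ₁ = -1 := by
        have h1 : chi D σ₁ * chi D σ = chi D σ * chi D σ₀ := by
          rw [← hmul, ← hmul, hprod]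
        rw [hχ₀] at h1
        have h2 : (chi D σ₁ + 1) * chi D σ = 0 := by linear_combination h1
        rcases mul_eq_zero.1 h2 with h3 | h3
        · linarith
        · exact absurd h3 (hne σ)
      have hact : ∀ v, act ρ σ₁ v = v := by
        intro v
        have h1 : ρ σ₁ = ρ 1 := by rw [hunr l hlB1 ψ σ₁ hσ₁I, map_one]
        have h2 : act ρ σ₁ = act ρ 1 := by
          unfold act
          rw [h1]
        rw [h2, act_one, LinearMap.id_apply]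
      have e1 : c1 (σ * σ₀) = c1 σ := by
        rw [hcoc1, h0 σ₀ hσ₀, map_zero, smul_zero, add_zero]
      have e2 : c1 (σ * σ₀) = -c1 σ := by
        rw [← hprod, hcoc1, h0 σ₁ hσ₁I, hχ₁, hact, zero_add, neg_smul, one_smul]
      have e3 : c1 σ = 0 := by
        have h1 : c1 σ = -c1 σ := e1.symm.trans e2
        exact self_eq_neg.1 h1
      exact sub_eq_zero.1 e3
    rw [hkey, slv_mk]

end Pool.Agent.Q164.ESV
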